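import Mathlib

namespace Pool.Agent.Results.MP_5f370d_co.Six

/-- The kite with vertices (0,0), (1,0), (2,2), (0,1). -/
def K0 : Set (EuclideanSpace ℝ (Fin 2)) :=
  {p | 0 ≤ p 0 ∧ 0 ≤ p 1 ∧ 2 * p 0 - p 1 ≤ 2 ∧ 2 * p 1 - p 0 ≤ 2}

lemma mem_copy (a b : ℝ) (p : EuclideanSpace ℝ (Fin 2)) (h1 : a ≤ p 0) (h2 : b ≤ p 1)
    (h3 : 2 * (p 0 - a) - (p 1 - b) ≤ 24 / 25) (h4 : 2 * (p 1 - b) - (p 0 - a) ≤ 24 / 25) :
    p ∈ (fun k => (!₂[a, b] : EuclideanSpace ℝ (Fin 2)) + (12 / 25 : ℝ) • k) '' K0 := by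
  refine ⟨(25 / 12 : ℝ) • (p - !₂[a, b]), ?_, ?_⟩
  · simp only [K0, Set.mem_ofPred_eq, PiLp.smul_apply, PiLp.sub_apply, smul_eq_mul,
      Matrix.cons_val_zero, Matrix.cons_val_one]
    refine ⟨?_, ?_, ?_, ?_⟩ <;> linarith
  · simp only [smul_smul]
    norm_num

theorem result : ∃ K : Set (EuclideanSpace ℝ (Fin 2)),
    IsCompact K ∧ Convex ℝ K ∧ (interior K).Nonempty ∧
    ∃ (x : Fin 6 → EuclideanSpace ℝ (Fin 2)) (l : Fin 6 → ℝ), (∀ i, 0 < l i ∧ l i < 1 / 2) ∧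
      K ⊆ ⋃ i, (fun k => x i + l i • k) '' K := by
  refine ⟨K0, ?_, ?_, ?_, ![!₂[0, 0], !₂[12 / 25, -2 / 25], !₂[-2 / 25, 12 / 25],
    !₂[18 / 25, 10 / 25], !₂[10 / 25, 18 / 25], !₂[26 / 25, 26 / 25]], fun _ => 12 / 25,
    fun _ => by norm_num, ?_⟩
  · apply Metric.isCompact_of_isClosed_isBounded
    · unfold K0
      simp only [Set.ofPred_and]
      refine IsClosed.inter ?_ (IsClosed.inter ?_ (IsClosed.inter ?_ ?_)) <;>
        exact isClosed_le (by fun_prop) (by fun_prop)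
    · rw [isBounded_iff_forall_norm_le]
      refine ⟨3, fun p hp => ?_⟩
      obtain ⟨h1, h2, h3, h4⟩ := hp
      rw [EuclideanSpace.norm_eq, Fin.sum_univ_two, Real.norm_eq_abs, Real.norm_eq_abs, sq_abs,
        sq_abs]
      apply Real.sqrt_le_iff.2
      refine ⟨by norm_num, ?_⟩
      nlinarith
  · intro p hp q hq a b ha hb hab
    obtain ⟨h1, h2, h3, h4⟩ := hp
    obtain ⟨g1, g2, g3, g4⟩ := hq
    simp only [K0, Set.mem_ofPred_eq, PiLp.add_apply, PiLp.smul_apply, smul_eq_mul]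
    refine ⟨by positivity, by positivity, ?_, ?_⟩ <;> nlinarith
  · refine ⟨!₂[1, 1], mem_interior.2 ⟨{p | 0 < p 0 ∧ 0 < p 1 ∧ 2 * p 0 - p 1 < 2 ∧
      2 * p 1 - p 0 < 2}, fun p hp => ⟨hp.1.le, hp.2.1.le, hp.2.2.1.le, hp.2.2.2.le⟩, ?_, ?_⟩⟩
    · simp only [Set.ofPred_and]
      refine IsOpen.inter ?_ (IsOpen.inter ?_ (IsOpen.inter ?_ ?_)) <;>
        exact isOpen_lt (by fun_prop) (by fun_prop)
    · simp
  · intro p hp
    obtain ⟨h1, h2, h3, h4⟩ := hp
    rw [Set.mem_iUnion]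
    by_contra hcon
    push Not at hcon
    have c0 := fun a b c d => hcon 0 (mem_copy 0 0 p a b c d)
    have c1 := fun a b c d => hcon 1 (mem_copy (12 / 25) (-2 / 25) p a b c d)
    have c2 := fun a b c d => hcon 2 (mem_copy (-2 / 25) (12 / 25) p a b c d)
    have c3 := fun a b c d => hcon 3 (mem_copy (18 / 25) (10 / 25) p a b c d)
    have c4 := fun a b c d => hcon 4 (mem_copy (10 / 25) (18 / 25) p a b c d)
    have c5 := fun a b c d => hcon 5 (mem_copy (26 / 25) (26 / 25) p a b c d)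
    clear hcon
    generalize p 0 = x at *
    generalize p 1 = y at *
    have d0 : 24 / 25 < 2 * x - y ∨ 24 / 25 < 2 * y - x := by
      by_contra h; push Not at h
      exact c0 h1 h2 (by linarith [h.1]) (by linarith [h.2])
    have d1 : x < 12 / 25 ∨ 8 / 25 < 2 * y - x := by
      by_contra h; push Not at h
      exact c1 h.1 (by linarith) (by linarith) (by linarith [h.2])
    have d2 : y < 12 / 25 ∨ 8 / 25 < 2 * x - y := by
      by_contra h; push Not at h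
      exact c2 (by linarith) h.1 (by linarith [h.2]) (by linarith)
    have d3 : x < 18 / 25 ∨ y < 10 / 25 ∨ 26 / 25 < 2 * y - x := by
      by_contra h; push Not at h
      exact c3 h.1 h.2.1 (by linarith) (by linarith [h.2.2])
    have d4 : y < 18 / 25 ∨ x < 10 / 25 ∨ 26 / 25 < 2 * x - y := by
      by_contra h; push Not at h
      exact c4 h.2.1 h.1 (by linarith [h.2.2]) (by linarith)
    have d5 : x < 26 / 25 ∨ y < 26 / 25 := by
      by_contra h; push Not at h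
      exact c5 h.1 h.2 (by linarith) (by linarith)
    clear c0 c1 c2 c3 c4 c5
    rcases d0 with d0 | d0 <;> rcases d1 with d1 | d1 <;> rcases d2 with d2 | d2 <;>
      rcases d3 with d3 | d3 | d3 <;> rcases d4 with d4 | d4 | d4 <;> rcases d5 with d5 | d5 <;>
      linarith

end Pool.Agent.Results.MP_5f370d_co.Six
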